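import Mathlib

/-!
# MP_6b5009_co: saturated k-fold colourings

The implication of Q1 holds for all graphs if and only if `k = 1`; if the hypothesis holds for
`k = 1` then hypothesis and conclusion hold for all `k`. For every `m ≥ 1` one connected
graph on `16 m` vertices refutes the implication for all `k ≥ 2` at once, with
`χ^(k+1) = χ^(k) + χ - m`: the complement of `m` disjoint copies of the triangle-free graph which
consists of three pentagons and one further vertex joined to one vertex of each pentagon. In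
general the gap `χ^(k) + χ - χ^(k+1)` is at most `(k - 1) (χ^(k) / k - 2)`, so for fixed `k` the
largest gap has the order of `χ^(k)`.
-/

namespace Pool.Agent.Results.MP_6b5009_co.OnlyOneFold

open Finset

/-- `f` is a `k`-fold colouring of `G` with colours from `C`. -/
def IsFold {V C : Type} (G : SimpleGraph V) (k : ℕ) (f : V → Finset C) : Prop :=
  (∀ v, (f v).card = k) ∧ ∀ u v, G.Adj u v → Disjoint (f u) (f v)

/-- The `k`-fold chromatic number. -/
noncomputable def foldChrom {V : Type} (G : SimpleGraph V) (k : ℕ) : ℕ :=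
  sInf {m : ℕ | ∃ f : V → Finset (Fin m), IsFold G k f}

/-- Every `k`-fold colouring with `χ^(k)(G)` colours is saturated: each colour appears on exactly
`α(G)` vertices. -/
def AllSaturated {V : Type} (G : SimpleGraph V) (k : ℕ) : Prop :=
  ∀ f : V → Finset (Fin (foldChrom G k)), IsFold G k f → ∀ c, {v | c ∈ f v}.ncard = G.indepNum

section general

variable {V : Type} (G : SimpleGraph V)

lemma foldChrom_le {C : Type} [Fintype C] {k : ℕ} (f : V → Finset C) (hf : IsFold G k f) :
    foldChrom G k ≤ Fintype.card C := by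
  refine Nat.sInf_le ⟨fun v => (f v).map (Fintype.equivFin C).toEmbedding, ?_, ?_⟩
  · intro v
    rw [Finset.card_map]
    exact hf.1 v
  · intro u v huv
    exact (Finset.disjoint_map _).2 (hf.2 u v huv)

lemma exists_fold_one [Fintype V] : ∃ (m : ℕ) (f : V → Finset (Fin m)), IsFold G 1 f := by
  classical
  refine ⟨Fintype.card V, fun v => {Fintype.equivFin V v}, fun v => Finset.card_singleton _, ?_⟩
  intro u v huv
  rw [Finset.disjoint_singleton]
  exact fun h => huv.ne ((Fintype.equivFin V).injective h)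

lemma fold_add {C D : Type} {k l : ℕ} (f : V → Finset C) (g : V → Finset D)
    (hf : IsFold G k f) (hg : IsFold G l g) :
    IsFold G (k + l) (fun v => (f v).disjSum (g v)) := by
  refine ⟨fun v => ?_, fun u v huv => ?_⟩
  · rw [Finset.card_disjSum, hf.1 v, hg.1 v]
  · rw [Finset.disjoint_left]
    intro x hx hy
    rcases x with x | x
    · rw [Finset.inl_mem_disjSum] at hx hy
      exact Finset.disjoint_left.1 (hf.2 u v huv) hx hy
    · rw [Finset.inr_mem_disjSum] at hx hy
      exact Finset.disjoint_left.1 (hg.2 u v huv) hx hy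

lemma exists_fold [Fintype V] (k : ℕ) : ∃ (m : ℕ) (f : V → Finset (Fin m)), IsFold G k f := by
  induction k with
  | zero => exact ⟨0, fun _ => ∅, fun _ => rfl, fun _ _ _ => Finset.disjoint_empty_left _⟩
  | succ k ih =>
    obtain ⟨m, f, hf⟩ := ih
    obtain ⟨m', g, hg⟩ := exists_fold_one G
    have h := fold_add G f g hf hg
    refine ⟨Fintype.card (Fin m ⊕ Fin m'),
      fun v => ((f v).disjSum (g v)).map (Fintype.equivFin _).toEmbedding, ?_, ?_⟩
    · intro v
      rw [Finset.card_map]
      exact h.1 v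
    · intro u v huv
      exact (Finset.disjoint_map _).2 (h.2 u v huv)

lemma foldChrom_spec [Fintype V] (k : ℕ) :
    ∃ f : V → Finset (Fin (foldChrom G k)), IsFold G k f :=
  Nat.sInf_mem (s := {m : ℕ | ∃ f : V → Finset (Fin m), IsFold G k f}) (exists_fold G k)

lemma foldChrom_add [Fintype V] (k l : ℕ) :
    foldChrom G (k + l) ≤ foldChrom G k + foldChrom G l := by
  obtain ⟨f, hf⟩ := foldChrom_spec G k
  obtain ⟨g, hg⟩ := foldChrom_spec G l
  have := foldChrom_le G _ (fold_add G f g hf hg)
  simpa using this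

/-- Double counting of incidences. -/
lemma sum_classes [Fintype V] {C : Type} [Fintype C] {k : ℕ} (f : V → Finset C)
    (hf : IsFold G k f) :
    ∑ c : C, {v | c ∈ f v}.ncard = k * Fintype.card V := by
  classical
  have h0 : ∀ c : C, {v | c ∈ f v}.ncard = (univ.filter fun v => c ∈ f v).card := by
    intro c
    rw [← Set.ncard_coe_finset]
    congr 1
    ext v
    simp
  rw [Finset.sum_congr rfl (fun c _ => h0 c)]
  have h1 : ∑ c : C, (univ.filter fun v => c ∈ f v).card =
      ∑ v : V, (univ.filter fun c => c ∈ f v).card := by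
    simp only [Finset.card_filter]
    exact Finset.sum_comm
  rw [h1]
  have h2 : ∀ v : V, (univ.filter fun c => c ∈ f v).card = k := by
    intro v
    rw [← hf.1 v]
    congr 1
    ext c
    simp
  rw [Finset.sum_congr rfl (fun v _ => h2 v), Finset.sum_const, smul_eq_mul, Finset.card_univ,
    mul_comm]

lemma class_le [Fintype V] {C : Type} {k : ℕ} (f : V → Finset C)
    (hf : IsFold G k f) (c : C) : {v | c ∈ f v}.ncard ≤ G.indepNum := by
  classical
  rw [Set.ncard_eq_toFinset_card']
  refine SimpleGraph.IsIndepSet.card_le_indepNum ?_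
  intro u hu v hv huv hadj
  rw [Finset.mem_coe, Set.mem_toFinset] at hu hv
  exact Finset.disjoint_left.1 (hf.2 u v hadj) hu hv

lemma mul_card_le [Fintype V] {C : Type} [Fintype C] {k : ℕ} (f : V → Finset C)
    (hf : IsFold G k f) : k * Fintype.card V ≤ Fintype.card C * G.indepNum := by
  rw [← sum_classes G f hf]
  calc _ ≤ ∑ c : C, G.indepNum := Finset.sum_le_sum fun c _ => class_le G f hf c
    _ = _ := by rw [Finset.sum_const, smul_eq_mul, Finset.card_univ]

lemma saturated_of_eq [Fintype V] (k : ℕ)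
    (h : foldChrom G k * G.indepNum = k * Fintype.card V) : AllSaturated G k := by
  intro f hf c
  have h1 := sum_classes G f hf
  by_contra hne
  have hlt : {v | c ∈ f v}.ncard < G.indepNum := lt_of_le_of_ne (class_le G f hf c) hne
  have h2 : ∑ c : Fin (foldChrom G k), {v | c ∈ f v}.ncard <
      ∑ c : Fin (foldChrom G k), G.indepNum :=
    Finset.sum_lt_sum (fun c _ => class_le G f hf c) ⟨c, Finset.mem_univ _, hlt⟩
  rw [Finset.sum_const, smul_eq_mul, Finset.card_univ, Fintype.card_fin] at h2
  omega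

lemma eq_of_saturated [Fintype V] (k : ℕ) (h : AllSaturated G k) :
    foldChrom G k * G.indepNum = k * Fintype.card V := by
  obtain ⟨f, hf⟩ := foldChrom_spec G k
  have h1 := sum_classes G f hf
  rw [← h1, Finset.sum_congr rfl (fun c _ => h f hf c), Finset.sum_const, smul_eq_mul,
    Finset.card_univ, Fintype.card_fin]

/-- `χ^(1) = χ`. -/
lemma foldChrom_one [Fintype V] : (foldChrom G 1 : ℕ∞) = G.chromaticNumber := by
  classical
  apply le_antisymm
  · have hcol : G.Colorable (Fintype.card V) := SimpleGraph.colorable_of_fintype G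
    have hne : G.chromaticNumber ≠ ⊤ := SimpleGraph.chromaticNumber_ne_top_iff_exists.2 ⟨_, hcol⟩
    have hc := SimpleGraph.colorable_chromaticNumber hcol
    obtain ⟨col⟩ := hc
    have h : foldChrom G 1 ≤ G.chromaticNumber.toNat := by
      have := foldChrom_le G (fun v => ({col v} : Finset (Fin G.chromaticNumber.toNat)))
        ⟨fun v => Finset.card_singleton _, fun u v huv => by
          rw [Finset.disjoint_singleton]
          exact col.valid huv⟩
      simpa using this
    rw [← ENat.natCast_toNat hne]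
    exact_mod_cast h
  · obtain ⟨f, hf⟩ := foldChrom_spec G 1
    have hc : ∀ v, ∃ c, f v = {c} := fun v => Finset.card_eq_one.1 (hf.1 v)
    choose col hcol using hc
    refine SimpleGraph.Colorable.chromaticNumber_le ⟨SimpleGraph.Coloring.mk col ?_⟩
    intro u v huv
    have := hf.2 u v huv
    rw [hcol u, hcol v, Finset.disjoint_singleton] at this
    exact this

/-- The implication holds for `k = 1`. -/
lemma one_fold [Fintype V] (h : AllSaturated G 1) :
    (foldChrom G (1 + 1) : ℕ∞) = foldChrom G 1 + G.chromaticNumber := by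
  rw [← foldChrom_one]
  have h1 := eq_of_saturated G 1 h
  have h2 := foldChrom_add G 1 1
  obtain ⟨f, hf⟩ := foldChrom_spec G (1 + 1)
  have h3 := mul_card_le G f hf
  rw [Fintype.card_fin] at h3
  have h4 : foldChrom G 1 + foldChrom G 1 ≤ foldChrom G (1 + 1) := by
    rcases Nat.eq_zero_or_pos G.indepNum with h0 | hpos
    · -- no vertices
      have hV : IsEmpty V := by
        by_contra hne
        rw [not_isEmpty_iff] at hne
        obtain ⟨v⟩ := hne
        have : ({v} : Finset V).card ≤ G.indepNum := by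
          refine SimpleGraph.IsIndepSet.card_le_indepNum ?_
          intro a ha b hb hab
          rw [Finset.mem_coe, Finset.mem_singleton] at ha hb
          exact absurd (ha.trans hb.symm) hab
        rw [Finset.card_singleton] at this
        omega
      have : foldChrom G 1 ≤ Fintype.card (Fin 0) :=
        foldChrom_le G (fun v => (hV.false v).elim) ⟨fun v => (hV.false v).elim,
          fun v => (hV.false v).elim⟩
      rw [Fintype.card_fin] at this
      omega
    · refine Nat.le_of_mul_le_mul_right ?_ hpos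
      calc (foldChrom G 1 + foldChrom G 1) * G.indepNum
          = 2 * (foldChrom G 1 * G.indepNum) := by ring
        _ = (1 + 1) * Fintype.card V := by rw [h1]; ring
        _ ≤ _ := h3
  have : foldChrom G (1 + 1) = foldChrom G 1 + foldChrom G 1 := le_antisymm h2 h4
  rw [this]
  push_cast
  rfl

lemma empty_of_indepNum [Fintype V] (h0 : G.indepNum = 0) : IsEmpty V := by
  classical
  by_contra hne
  rw [not_isEmpty_iff] at hne
  obtain ⟨v⟩ := hne
  have : ({v} : Finset V).card ≤ G.indepNum := by
    refine SimpleGraph.IsIndepSet.card_le_indepNum ?_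
    intro a ha b hb hab
    rw [Finset.mem_coe, Finset.mem_singleton] at ha hb
    exact absurd (ha.trans hb.symm) hab
  rw [Finset.card_singleton] at this
  omega

lemma foldChrom_zero : foldChrom G 0 = 0 := by
  have : foldChrom G 0 ≤ Fintype.card (Fin 0) :=
    foldChrom_le G (fun _ => (∅ : Finset (Fin 0)))
      ⟨fun _ => rfl, fun _ _ _ => Finset.disjoint_empty_left _⟩
  rw [Fintype.card_fin] at this
  omega

lemma foldChrom_le_mul [Fintype V] (k : ℕ) : foldChrom G k ≤ k * foldChrom G 1 := by
  induction k with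
  | zero => rw [foldChrom_zero]; omega
  | succ k ih =>
    calc foldChrom G (k + 1) ≤ foldChrom G k + foldChrom G 1 := foldChrom_add G k 1
      _ ≤ k * foldChrom G 1 + foldChrom G 1 := Nat.add_le_add_right ih _
      _ = _ := by ring

/-- If all proper colourings with `χ(G)` colours are saturated, equality holds for all `k`. -/
lemma all_of_one [Fintype V] (h : AllSaturated G 1) (k : ℕ) :
    foldChrom G k = k * foldChrom G 1 ∧ AllSaturated G k := by
  have h1 := eq_of_saturated G 1 h
  have hle := foldChrom_le_mul G k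
  obtain ⟨f, hf⟩ := foldChrom_spec G k
  have h3 := mul_card_le G f hf
  rw [Fintype.card_fin] at h3
  rcases Nat.eq_zero_or_pos G.indepNum with h0 | hpos
  · have hV := empty_of_indepNum G h0
    have hz : ∀ j, foldChrom G j = 0 := by
      intro j
      have : foldChrom G j ≤ Fintype.card (Fin 0) :=
        foldChrom_le G (fun v => (hV.false v).elim) ⟨fun v => (hV.false v).elim,
          fun v => (hV.false v).elim⟩
      rw [Fintype.card_fin] at this
      omega
    refine ⟨by rw [hz, hz]; omega, saturated_of_eq G k ?_⟩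
    rw [hz, Fintype.card_eq_zero]
    omega
  · have heq : foldChrom G k = k * foldChrom G 1 := by
      refine le_antisymm hle (Nat.le_of_mul_le_mul_right ?_ hpos)
      calc k * foldChrom G 1 * G.indepNum = k * (foldChrom G 1 * G.indepNum) := by ring
        _ = k * Fintype.card V := by rw [h1]; ring
        _ ≤ _ := h3
    refine ⟨heq, saturated_of_eq G k ?_⟩
    calc foldChrom G k * G.indepNum = k * (foldChrom G 1 * G.indepNum) := by rw [heq]; ring
      _ = _ := by rw [h1]; ring

/-- A `k`-fold colouring with `M` colours gives a proper colouring with `M - 2 k + 2` colours. -/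
lemma kneser_upper [Fintype V] (k M : ℕ) (hk : 1 ≤ k) (hM : 2 * k ≤ M) (f : V → Finset (Fin M))
    (hf : IsFold G k f) : foldChrom G 1 ≤ M - 2 * k + 2 := by
  classical
  have hne : ∀ v, (f v).Nonempty := fun v => by
    rw [← Finset.card_pos, hf.1 v]
    exact hk
  let a : V → ℕ := fun v => ((f v).min' (hne v)).1
  have ha : ∀ v, ∃ x ∈ f v, x.1 = a v ∧ ∀ y ∈ f v, a v ≤ y.1 := fun v =>
    ⟨(f v).min' (hne v), Finset.min'_mem _ _, rfl, fun y hy => Finset.min'_le (f v) y hy⟩
  let col : V → Fin (M - 2 * k + 2) := fun v =>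
    ⟨min (a v) (M - 2 * k + 1), lt_of_le_of_lt (min_le_right _ _) (by omega)⟩
  have hcol : ∀ u v, G.Adj u v → col u ≠ col v := by
    intro u v huv e
    have e' : min (a u) (M - 2 * k + 1) = min (a v) (M - 2 * k + 1) := congrArg Fin.val e
    have hd := hf.2 u v huv
    obtain ⟨x, hx, hxa, hxm⟩ := ha u
    obtain ⟨y, hy, hya, hym⟩ := ha v
    rcases lt_or_ge (a u) (M - 2 * k + 1) with hlt | hge
    · have hav : a v = a u := by
        rcases lt_or_ge (a v) (M - 2 * k + 1) with h1 | h1
        · rw [min_eq_left hlt.le, min_eq_left h1.le] at e'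
          exact e'.symm
        · rw [min_eq_left hlt.le, min_eq_right h1] at e'
          omega
      have hxy : x = y := Fin.ext (by rw [hxa, hya, hav])
      rw [hxy] at hx
      exact Finset.disjoint_left.1 hd hx hy
    · have hav : M - 2 * k + 1 ≤ a v := by
        by_contra hcon
        push Not at hcon
        rw [min_eq_right hge, min_eq_left hcon.le] at e'
        omega
      have hsub : (f u ∪ f v).image Fin.val ⊆ Finset.Ico (M - 2 * k + 1) M := by
        intro z hz
        rw [Finset.mem_image] at hz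
        obtain ⟨w, hw, rfl⟩ := hz
        rw [Finset.mem_Ico]
        refine ⟨?_, w.2⟩
        rw [Finset.mem_union] at hw
        rcases hw with hw | hw
        · exact hge.trans (hxm w hw)
        · exact hav.trans (hym w hw)
      have hc := Finset.card_le_card hsub
      rw [Finset.card_image_of_injective _ Fin.val_injective,
        Finset.card_union_of_disjoint hd, hf.1 u, hf.1 v, Nat.card_Ico] at hc
      omega
  have := foldChrom_le G (fun v => ({col v} : Finset (Fin (M - 2 * k + 2))))
    ⟨fun v => Finset.card_singleton _, fun u v huv => by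
      rw [Finset.disjoint_singleton]
      exact hcol u v huv⟩
  rwa [Fintype.card_fin] at this

/-- The gap is at most `(k - 1) (χ^(k) / k - 2)`. -/
lemma gap_upper [Fintype V] (k : ℕ) (hk : 1 ≤ k) (hE : ∃ u v, G.Adj u v)
    (h : AllSaturated G k) : k * (foldChrom G k + foldChrom G 1) ≤
      k * foldChrom G (k + 1) + (k - 1) * (foldChrom G k - 2 * k) := by
  classical
  obtain ⟨u, v, huv⟩ := hE
  have h1 := eq_of_saturated G k h
  obtain ⟨f, hf⟩ := foldChrom_spec G k
  obtain ⟨g, hg⟩ := foldChrom_spec G (k + 1)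
  have h2 := mul_card_le G g hg
  rw [Fintype.card_fin] at h2
  have hpos : 0 < G.indepNum := by
    rcases Nat.eq_zero_or_pos G.indepNum with h0 | hpos
    · exact ((empty_of_indepNum G h0).false u).elim
    · exact hpos
  have h3 : (k + 1) * foldChrom G k ≤ k * foldChrom G (k + 1) := by
    refine Nat.le_of_mul_le_mul_right ?_ hpos
    calc (k + 1) * foldChrom G k * G.indepNum = (k + 1) * (foldChrom G k * G.indepNum) := by ring
      _ = k * ((k + 1) * Fintype.card V) := by rw [h1]; ring
      _ ≤ k * (foldChrom G (k + 1) * G.indepNum) := Nat.mul_le_mul_left _ h2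
      _ = _ := by ring
  have h4 : 2 * k ≤ foldChrom G k := by
    have hd := hf.2 u v huv
    have hc := Finset.card_le_univ (f u ∪ f v)
    rw [Finset.card_union_of_disjoint hd, hf.1 u, hf.1 v, Fintype.card_fin] at hc
    omega
  have h5 := kneser_upper G k _ hk h4 f hf
  obtain ⟨d, hd⟩ : ∃ d, foldChrom G k = 2 * k + d := ⟨foldChrom G k - 2 * k, by omega⟩
  obtain ⟨j, rfl⟩ : ∃ j, k = j + 1 := ⟨k - 1, by omega⟩
  rw [hd] at h3 h5 ⊢
  have h6 : foldChrom G 1 ≤ d + 2 := by omega
  have e1 : 2 * (j + 1) + d - 2 * (j + 1) = d := by omega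
  have e2 : j + 1 - 1 = j := by omega
  rw [e1, e2]
  calc (j + 1) * (2 * (j + 1) + d + foldChrom G 1)
      ≤ (j + 1) * (2 * (j + 1) + d + (d + 2)) := by gcongr
    _ = (j + 1 + 1) * (2 * (j + 1) + d) + j * d := by ring
    _ ≤ _ := Nat.add_le_add_right h3 _

end general

/-! ### The graph -/

/-- The edges of three pentagons, and a further vertex `0` joined to one vertex of each. -/
def edges : List (Fin 16 × Fin 16) :=
  [(0, 1), (0, 6), (0, 11), (1, 2), (2, 3), (3, 4), (4, 5), (5, 1), (6, 7), (7, 8), (8, 9),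
    (9, 10), (10, 6), (11, 12), (12, 13), (13, 14), (14, 15), (15, 11)]

/-- Adjacency. -/
def hadj (a b : Fin 16) : Bool := edges.contains (a, b) || edges.contains (b, a)

lemma hadj_symm (a b : Fin 16) : hadj a b = hadj b a := Bool.or_comm _ _

lemma hadj_no_triangle : ∀ a b c : Fin 16, hadj a b = true → hadj b c = true →
    hadj a c = true → False := by
  decide

/-- The complement of `m` disjoint copies. -/
def GG (m : ℕ) : SimpleGraph (Fin m × Fin 16) where
  Adj p q := p ≠ q ∧ ¬ (p.1 = q.1 ∧ hadj p.2 q.2 = true)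
  symm := ⟨fun p q h => ⟨h.1.symm, fun h' => h.2 ⟨h'.1.symm, by rw [hadj_symm]; exact h'.2⟩⟩⟩
  loopless := ⟨fun _ h => h.1 rfl⟩

lemma not_adj {m : ℕ} {p q : Fin m × Fin 16} (hne : p ≠ q) (h : ¬ (GG m).Adj p q) :
    p.1 = q.1 ∧ hadj p.2 q.2 = true := by
  by_contra hcon
  exact h ⟨hne, hcon⟩

lemma indepNum_GG (m : ℕ) (hm : 1 ≤ m) : (GG m).indepNum = 2 := by
  classical
  apply le_antisymm
  · by_contra hcon
    push Not at hcon
    obtain ⟨s, hs⟩ := (GG m).exists_isNIndepSet_indepNum
    have hcard := hs.card_eq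
    obtain ⟨a, ha, b, hb, c, hc, hab, hac, hbc⟩ := Finset.two_lt_card.1 (by omega : 2 < s.card)
    have h1 := not_adj hab (hs.isIndepSet (Finset.mem_coe.2 ha) (Finset.mem_coe.2 hb) hab)
    have h2 := not_adj hbc (hs.isIndepSet (Finset.mem_coe.2 hb) (Finset.mem_coe.2 hc) hbc)
    have h3 := not_adj hac (hs.isIndepSet (Finset.mem_coe.2 ha) (Finset.mem_coe.2 hc) hac)
    exact hadj_no_triangle _ _ _ h1.2 h2.2 h3.2
  · let i : Fin m := ⟨0, hm⟩
    have hne : ((i, 0) : Fin m × Fin 16) ≠ (i, 1) := by
      intro h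
      have := (Prod.mk.inj h).2
      revert this
      decide
    rw [← Finset.card_pair hne]
    refine SimpleGraph.IsIndepSet.card_le_indepNum ?_
    have h01 : hadj 0 1 = true := by decide
    have h10 : hadj 1 0 = true := by decide
    intro a ha b hb hab hadj'
    simp only [Finset.coe_insert, Finset.coe_singleton, Set.mem_insert_iff,
      Set.mem_singleton_iff] at ha hb
    rcases ha with rfl | rfl <;> rcases hb with rfl | rfl
    · exact hab rfl
    · exact hadj'.2 ⟨rfl, h01⟩
    · exact hadj'.2 ⟨rfl, h10⟩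
    · exact hab rfl

lemma lift_fold {C : Type} [DecidableEq C] (m k : ℕ) (f : Fin 16 → Finset C)
    (h1 : ∀ v, (f v).card = k)
    (h2 : ∀ u v, u ≠ v → hadj u v = false → Disjoint (f u) (f v)) :
    IsFold (GG m) k (fun p => ({p.1} : Finset (Fin m)) ×ˢ f p.2) := by
  refine ⟨fun p => ?_, fun p q hpq => ?_⟩
  · rw [Finset.card_product, Finset.card_singleton, one_mul, h1]
  · rw [Finset.disjoint_product]
    by_cases h : p.1 = q.1
    · right
      refine h2 _ _ (fun e => hpq.1 (Prod.ext h e)) ?_
      by_contra hcon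
      rw [Bool.not_eq_false] at hcon
      exact hpq.2 ⟨h, hcon⟩
    · left
      rwa [Finset.disjoint_singleton]

/-- Sixteen edges covering each vertex twice. -/
def E2 : Fin 16 → Fin 16 × Fin 16 :=
  ![(0, 1), (0, 1), (2, 3), (2, 3), (4, 5), (4, 5), (6, 7), (7, 8), (8, 9), (9, 10), (10, 6),
    (11, 12), (12, 13), (13, 14), (14, 15), (15, 11)]

/-- Twenty-four edges covering each vertex three times. -/
def E3 : Fin 24 → Fin 16 × Fin 16 :=
  ![(0, 1), (0, 6), (0, 11),
    (1, 2), (1, 5), (2, 3), (2, 3), (5, 4), (5, 4), (3, 4),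
    (6, 7), (6, 10), (7, 8), (7, 8), (10, 9), (10, 9), (8, 9),
    (11, 12), (11, 15), (12, 13), (12, 13), (15, 14), (15, 14), (13, 14)]

/-- Nine classes. -/
def cl : Fin 16 → Fin 9 := ![0, 0, 1, 1, 2, 2, 3, 3, 4, 4, 5, 6, 6, 7, 7, 8]

/-- The colourings of one copy. -/
def f2 (v : Fin 16) : Finset (Fin 16) := univ.filter fun c => (E2 c).1 = v ∨ (E2 c).2 = v

/-- The colourings of one copy. -/
def f3 (v : Fin 16) : Finset (Fin 24) := univ.filter fun c => (E3 c).1 = v ∨ (E3 c).2 = v

lemma f2_card : ∀ v, (f2 v).card = 2 := by decide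

lemma f3_card : ∀ v, (f3 v).card = 3 := by decide

lemma E2_adj : ∀ c u v, u ≠ v → ((E2 c).1 = u ∨ (E2 c).2 = u) → ((E2 c).1 = v ∨ (E2 c).2 = v) →
    hadj u v = true := by
  have h : ∀ c, hadj (E2 c).1 (E2 c).2 = true ∧ hadj (E2 c).2 (E2 c).1 = true := by decide
  intro c u v huv hu hv
  rcases hu with rfl | rfl <;> rcases hv with rfl | rfl
  · exact absurd rfl huv
  · exact (h c).1
  · exact (h c).2
  · exact absurd rfl huv

lemma E3_adj : ∀ c u v, u ≠ v → ((E3 c).1 = u ∨ (E3 c).2 = u) → ((E3 c).1 = v ∨ (E3 c).2 = v) →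
    hadj u v = true := by
  have h : ∀ c, hadj (E3 c).1 (E3 c).2 = true ∧ hadj (E3 c).2 (E3 c).1 = true := by decide
  intro c u v huv hu hv
  rcases hu with rfl | rfl <;> rcases hv with rfl | rfl
  · exact absurd rfl huv
  · exact (h c).1
  · exact (h c).2
  · exact absurd rfl huv

lemma f2_disj (u v : Fin 16) (huv : u ≠ v) (h : hadj u v = false) : Disjoint (f2 u) (f2 v) := by
  rw [Finset.disjoint_left]
  intro c hu hv
  rw [f2, Finset.mem_filter] at hu hv
  have := E2_adj c u v huv hu.2 hv.2
  rw [h] at this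
  exact Bool.false_ne_true this

lemma f3_disj (u v : Fin 16) (huv : u ≠ v) (h : hadj u v = false) : Disjoint (f3 u) (f3 v) := by
  rw [Finset.disjoint_left]
  intro c hu hv
  rw [f3, Finset.mem_filter] at hu hv
  have := E3_adj c u v huv hu.2 hv.2
  rw [h] at this
  exact Bool.false_ne_true this

lemma cl_disj : ∀ u v : Fin 16, u ≠ v → hadj u v = false → cl u ≠ cl v := by decide

lemma foldChrom_two (m : ℕ) : foldChrom (GG m) 2 ≤ 16 * m := by
  have := foldChrom_le (GG m) _ (lift_fold m 2 f2 f2_card f2_disj)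
  rw [Fintype.card_prod, Fintype.card_fin, Fintype.card_fin] at this
  omega

lemma foldChrom_three (m : ℕ) : foldChrom (GG m) 3 ≤ 24 * m := by
  have := foldChrom_le (GG m) _ (lift_fold m 3 f3 f3_card f3_disj)
  rw [Fintype.card_prod, Fintype.card_fin, Fintype.card_fin] at this
  omega

lemma foldChrom_upper (m : ℕ) : ∀ k, foldChrom (GG m) (k + 2) ≤ 8 * m * (k + 2) := by
  have key : ∀ k, foldChrom (GG m) (k + 2) ≤ 8 * m * (k + 2) ∧
      foldChrom (GG m) (k + 3) ≤ 8 * m * (k + 3) := by
    intro k
    induction k with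
    | zero =>
      refine ⟨(foldChrom_two m).trans (by ring_nf; rfl), (foldChrom_three m).trans (by ring_nf; rfl)⟩
    | succ k ih =>
      refine ⟨ih.2, ?_⟩
      have h := foldChrom_add (GG m) (k + 2) 2
      have h2 := foldChrom_two m
      calc foldChrom (GG m) (k + 1 + 3) ≤ foldChrom (GG m) (k + 2) + foldChrom (GG m) 2 := h
        _ ≤ 8 * m * (k + 2) + 16 * m := Nat.add_le_add ih.1 h2
        _ = _ := by ring
  exact fun k => (key k).1

lemma foldChrom_GG (m : ℕ) (hm : 1 ≤ m) (k : ℕ) (hk : 2 ≤ k) : foldChrom (GG m) k = 8 * m * k := by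
  obtain ⟨j, rfl⟩ : ∃ j, k = j + 2 := ⟨k - 2, by omega⟩
  apply le_antisymm (foldChrom_upper m j)
  obtain ⟨f, hf⟩ := foldChrom_spec (GG m) (j + 2)
  have h := mul_card_le (GG m) f hf
  rw [indepNum_GG m hm, Fintype.card_fin, Fintype.card_prod, Fintype.card_fin,
    Fintype.card_fin] at h
  have : 8 * m * (j + 2) * 2 ≤ foldChrom (GG m) (j + 2) * 2 := by
    calc 8 * m * (j + 2) * 2 = (j + 2) * (m * 16) := by ring
      _ ≤ _ := h
  omega

/-- Vertices of the pentagons. -/
def vtx (j : Fin 3) (t : Fin 5) : Fin 16 := ⟨5 * j.1 + 1 + t.1, by omega⟩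

lemma vtx_blocks : ∀ (j j' : Fin 3) (t t' : Fin 5), j ≠ j' →
    vtx j t ≠ vtx j' t' ∧ hadj (vtx j t) (vtx j' t') = false := by
  decide

lemma vtx_two : ∀ (j : Fin 3) (t : Fin 5), vtx j t ≠ vtx j (t + 2) ∧
    hadj (vtx j t) (vtx j (t + 2)) = false := by
  decide

lemma chrom_lower (m N : ℕ) (col : Fin m × Fin 16 → Fin N)
    (hcol : ∀ p q, (GG m).Adj p q → col p ≠ col q) : 9 * m ≤ N := by
  classical
  have hB : ∀ x : Fin m × Fin 3, 3 ≤ (univ.image fun t : Fin 5 => col (x.1, vtx x.2 t)).card := by
    rintro ⟨i, j⟩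
    simp only
    have hne : ∀ t : Fin 5, col (i, vtx j t) ≠ col (i, vtx j (t + 2)) := by
      intro t
      refine hcol _ _ ⟨fun e => (vtx_two j t).1 (Prod.mk.inj e).2, fun h => ?_⟩
      have := (vtx_two j t).2
      rw [h.2] at this
      exact Bool.false_ne_true this.symm
    have h0 := hne 0
    have h2 := hne 2
    have h4 := hne 4
    have h1 := hne 1
    have h3 := hne 3
    rw [show (0 : Fin 5) + 2 = 2 from rfl] at h0
    rw [show (2 : Fin 5) + 2 = 4 from rfl] at h2
    rw [show (4 : Fin 5) + 2 = 1 from rfl] at h4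
    rw [show (1 : Fin 5) + 2 = 3 from rfl] at h1
    rw [show (3 : Fin 5) + 2 = 0 from rfl] at h3
    have hmem : ∀ t : Fin 5, col (i, vtx j t) ∈ univ.image fun t : Fin 5 => col (i, vtx j t) :=
      fun t => Finset.mem_image_of_mem _ (Finset.mem_univ t)
    have hgoal : 2 < (univ.image fun t : Fin 5 => col (i, vtx j t)).card := by
      rw [Finset.two_lt_card]
      by_cases e40 : col (i, vtx j 4) = col (i, vtx j 0)
      · by_cases e12 : col (i, vtx j 1) = col (i, vtx j 2)
        · refine ⟨_, hmem 0, _, hmem 2, _, hmem 3, h0, h3.symm, ?_⟩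
          rw [← e12]
          exact h1
        · refine ⟨_, hmem 0, _, hmem 2, _, hmem 1, h0, ?_, fun e => e12 e.symm⟩
          rw [← e40]
          exact h4
      · exact ⟨_, hmem 0, _, hmem 2, _, hmem 4, h0, fun e => e40 e.symm, h2⟩
    exact hgoal
  have hdisj : ∀ x ∈ (univ : Finset (Fin m × Fin 3)), ∀ y ∈ (univ : Finset (Fin m × Fin 3)), x ≠ y →
      Disjoint (univ.image fun t : Fin 5 => col (x.1, vtx x.2 t))
        (univ.image fun t : Fin 5 => col (y.1, vtx y.2 t)) := by
    intro x _ y _ hxy
    rw [Finset.disjoint_left]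
    intro c hx hy
    rw [Finset.mem_image] at hx hy
    obtain ⟨t, -, ht⟩ := hx
    obtain ⟨t', -, ht'⟩ := hy
    refine hcol (x.1, vtx x.2 t) (y.1, vtx y.2 t') ?_ (ht.trans ht'.symm)
    by_cases h1 : x.1 = y.1
    · have hj : x.2 ≠ y.2 := fun e => hxy (Prod.ext h1 e)
      have hv := vtx_blocks x.2 y.2 t t' hj
      refine ⟨fun e => hv.1 (Prod.mk.inj e).2, fun h => ?_⟩
      have h2 := hv.2
      rw [h.2] at h2
      exact Bool.false_ne_true h2.symm
    · exact ⟨fun e => h1 (Prod.mk.inj e).1, fun h => h1 h.1⟩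
  have hcard := Finset.card_biUnion hdisj
  have hle : ((univ : Finset (Fin m × Fin 3)).biUnion
      fun x => univ.image fun t : Fin 5 => col (x.1, vtx x.2 t)).card ≤ N := by
    have := Finset.card_le_univ ((univ : Finset (Fin m × Fin 3)).biUnion
      fun x => univ.image fun t : Fin 5 => col (x.1, vtx x.2 t))
    rwa [Fintype.card_fin] at this
  have hsum : ∑ x : Fin m × Fin 3, 3 ≤
      ∑ x : Fin m × Fin 3, (univ.image fun t : Fin 5 => col (x.1, vtx x.2 t)).card :=
    Finset.sum_le_sum fun x _ => hB x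
  rw [Finset.sum_const, Finset.card_univ, Fintype.card_prod, Fintype.card_fin, Fintype.card_fin,
    smul_eq_mul] at hsum
  omega

lemma foldChrom_GG_one (m : ℕ) : foldChrom (GG m) 1 = 9 * m := by
  apply le_antisymm
  · have := foldChrom_le (GG m) _ (lift_fold m 1 (fun v => ({cl v} : Finset (Fin 9)))
      (fun v => Finset.card_singleton _)
      (fun u v huv h => by rw [Finset.disjoint_singleton]; exact cl_disj u v huv h))
    rw [Fintype.card_prod, Fintype.card_fin, Fintype.card_fin] at this
    omega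
  · obtain ⟨f, hf⟩ := foldChrom_spec (GG m) 1
    have hc : ∀ v, ∃ c, f v = {c} := fun v => Finset.card_eq_one.1 (hf.1 v)
    choose col hcol using hc
    refine chrom_lower m _ col fun p q hpq => ?_
    have := hf.2 p q hpq
    rwa [hcol p, hcol q, Finset.disjoint_singleton] at this

lemma common_nonneighbour : ∀ a b : Fin 16, ∃ w, w ≠ a ∧ w ≠ b ∧ hadj a w = false ∧
    hadj w b = false := by
  decide

lemma connected_GG (m : ℕ) (hm : 1 ≤ m) : (GG m).Connected := by
  have : Nonempty (Fin m × Fin 16) := ⟨(⟨0, hm⟩, 0)⟩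
  refine SimpleGraph.Connected.mk fun p q => ?_
  by_cases hpq : p = q
  · rw [hpq]
  by_cases hadj' : (GG m).Adj p q
  · exact hadj'.reachable
  · have h := not_adj hpq hadj'
    obtain ⟨w, hw1, hw2, hw3, hw4⟩ := common_nonneighbour p.2 q.2
    have h1 : (GG m).Adj p (p.1, w) := by
      refine ⟨fun e => hw1 (congrArg Prod.snd e).symm, fun h' => ?_⟩
      have := h'.2
      simp only at this
      rw [hw3] at this
      exact Bool.false_ne_true this
    have h2 : (GG m).Adj (p.1, w) q := by
      refine ⟨fun e => hw2 (congrArg Prod.snd e), fun h' => ?_⟩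
      have := h'.2
      simp only at this
      rw [hw4] at this
      exact Bool.false_ne_true this
    exact h1.reachable.trans h2.reachable

/-- **Q1 holds exactly for `k = 1`**, and for `k ≥ 2` it fails with an arbitrarily large gap, for
all `k` at once. -/
theorem result :
    (∀ k : ℕ, 1 ≤ k → ((∀ (V : Type) [Fintype V] (G : SimpleGraph V), AllSaturated G k →
      (foldChrom G (k + 1) : ℕ∞) = foldChrom G k + G.chromaticNumber) ↔ k = 1)) ∧
    (∀ (V : Type) [Fintype V] (G : SimpleGraph V), AllSaturated G 1 → ∀ k : ℕ,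
      AllSaturated G k ∧ (foldChrom G (k + 1) : ℕ∞) = foldChrom G k + G.chromaticNumber) ∧
    (∀ (V : Type) [Fintype V] (G : SimpleGraph V) (k : ℕ), 1 ≤ k → (∃ u v, G.Adj u v) →
      AllSaturated G k → ((k * foldChrom G k : ℕ) : ℕ∞) + k * G.chromaticNumber ≤
        ((k * foldChrom G (k + 1) + (k - 1) * (foldChrom G k - 2 * k) : ℕ) : ℕ∞)) ∧
    ∀ m : ℕ, 1 ≤ m → ∃ G : SimpleGraph (Fin m × Fin 16), G.Connected ∧ G.indepNum = 2 ∧
      G.chromaticNumber = ((9 * m : ℕ) : ℕ∞) ∧ ∀ k : ℕ, 2 ≤ k →
        foldChrom G k = 8 * m * k ∧ AllSaturated G k ∧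
          foldChrom G (k + 1) + m = foldChrom G k + 9 * m := by
  have hmain : ∀ m : ℕ, 1 ≤ m → (GG m).Connected ∧ (GG m).indepNum = 2 ∧
      (GG m).chromaticNumber = ((9 * m : ℕ) : ℕ∞) ∧ ∀ k : ℕ, 2 ≤ k →
        foldChrom (GG m) k = 8 * m * k ∧ AllSaturated (GG m) k ∧
          foldChrom (GG m) (k + 1) + m = foldChrom (GG m) k + 9 * m := by
    intro m hm
    refine ⟨connected_GG m hm, indepNum_GG m hm, ?_, fun k hk => ?_⟩
    · rw [← foldChrom_one, foldChrom_GG_one]
    · have h1 := foldChrom_GG m hm k hk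
      have h2 := foldChrom_GG m hm (k + 1) (by omega)
      refine ⟨h1, ?_, ?_⟩
      · apply saturated_of_eq
        rw [h1, indepNum_GG m hm, Fintype.card_prod, Fintype.card_fin, Fintype.card_fin]
        ring
      · rw [h1, h2]
        ring
  refine ⟨fun k hk => ⟨fun h => ?_, ?_⟩, ?_, ?_, fun m hm => ⟨GG m, hmain m hm⟩⟩
  · by_contra hne
    obtain ⟨-, -, h3, h4⟩ := hmain 1 le_rfl
    obtain ⟨-, h5, h6⟩ := h4 k (by omega)
    have h7 := h _ (GG 1) h5
    rw [h3] at h7
    have h8 : foldChrom (GG 1) (k + 1) = foldChrom (GG 1) k + 9 * 1 := by exact_mod_cast h7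
    omega
  · rintro rfl V _ G hG
    exact one_fold G hG
  · intro V _ G hG k
    refine ⟨(all_of_one G hG k).2, ?_⟩
    rw [← foldChrom_one, (all_of_one G hG k).1, (all_of_one G hG (k + 1)).1]
    push_cast
    ring
  · intro V _ G k hk hE hG
    rw [← foldChrom_one]
    have := gap_upper G k hk hE hG
    rw [mul_add] at this
    exact_mod_cast this

end Pool.Agent.Results.MP_6b5009_co.OnlyOneFold
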